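import Pool.Agent.H34.EP.Ker

set_option autoImplicit false

/-!
# Surgeries on the preimage of an even pretzel link and its crossing circles

Let `K` be the unlink with three components, drawn as the pretzel link `P(0, 0, 0)`: the component
`k` runs down the left side of column `k` and up the right side of column `k - 1` (`k` modulo
three), so that the two strings of each column are antiparallel.  Let `C j` be a circle around
column `j`.  The preimage of the link formed by `K` and the three circles in the `n`-fold cyclic
cover of the complement of `K` (all meridians of `K` go to `1` in `Z/n`) has one component over each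
component of `K`, and `n` components over each circle, one for each copy `i` of the diagram.

The exterior is filled along all `3 n + 3` tori:

* over the circle `j` in the copy `i` the slope is `r = p j i / q j i`, a rational number `≥ 0` or
  infinity: the curve that is killed is `meridian ^ q * longitude ^ (-p)`.  This replaces column `j`
  of this copy of the diagram by `2 r` crossings.  The `3 n` slopes are independent of each other;
* over the component `k` of `K` the curve that is killed is
  `(n times the meridian) ^ v k * longitude ^ u k` with `v k ≥ 1`, `u k ≥ 0`.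

If in every copy at most one slope is `0` and not all three are infinite, and in at least one copy
the three slopes are positive and finite, then every homomorphism from the fundamental group of the
filled manifold to a left-orderable group is trivial.

For `q = 1`, `p j i = l j`, `v = 1` and `u = 0` the manifold is the `n`-fold cyclic branched cover
of the pretzel link `P(2 l 0, 2 l 1, 2 l 2)`.
-/

universe w

namespace Pool.Agent.Results.MP_9ae2f3_gt.EvenPretzelLiftSurgeries

open Pool.Agent.Y479.LS (Aut)

/-- A nontrivial group is left-orderable if it carries a strict total order that is invariant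
under left multiplication. -/
def LeftOrderable (G : Type*) [Group G] : Prop :=
  Nontrivial G ∧ ∃ lt : G → G → Prop, IsStrictTotalOrder G lt ∧
    ∀ a b c : G, lt a b ↔ lt (c * a) (c * b)

/-- The meridian `top j` belongs to the arc at the top of the diagram that joins the top right end
of column `j - 1` to the top left end of column `j`, oriented into column `j`; `circ j` is the
meridian of the front part of the circle around column `j`. -/
inductive Gen : Type
  | top (j : ZMod 3)
  | circ (j : ZMod 3)

/-- The meridians of the three top arcs. -/
def top (j : ZMod 3) : FreeGroup Gen := FreeGroup.of (Gen.top j)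

/-- The meridians of the three circles. -/
def circ (j : ZMod 3) : FreeGroup Gen := FreeGroup.of (Gen.circ j)

/-- The longitude of the circle around column `j`: the product of the downward meridians `top j`
and `(top (j + 1))⁻¹` of the two strings of this column. -/
def around (j : ZMod 3) : FreeGroup Gen := top j * (top (j + 1))⁻¹

/-- The downward meridians of the two strings at the bottom of column `j`, after they have passed
under the front part of the circle. -/
def bottom (j : ZMod 3) : FreeGroup Gen × FreeGroup Gen :=
  ((circ j)⁻¹ * top j * circ j, (circ j)⁻¹ * (top (j + 1))⁻¹ * circ j)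

/-- The bottom right end of column `j` is joined to the bottom left end of column `j + 1`. -/
def relator (j : ZMod 3) : FreeGroup Gen := (bottom j).2 * (bottom (j + 1)).1

/-- The meridian of the circle around column `j` commutes with its longitude. -/
def commuting (j : ZMod 3) : FreeGroup Gen := circ j * around j * (circ j)⁻¹ * (around j)⁻¹

/-- The longitude of the component `k` of `K`, oriented like this component: it runs down column
`k`, under the front part of the circle `k`, and up column `k - 1` (`k + 2 = k - 1` modulo three),
under the front part of the circle `k - 1`. -/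
def parallel (k : ZMod 3) : FreeGroup Gen := circ k * (circ (k + 2))⁻¹

/-- The relations of the group of the link that consists of `K` and the three circles. -/
def relations : Set (FreeGroup Gen) := Set.range relator ∪ Set.range commuting

/-- The group of the link that consists of `K` and the three circles. -/
abbrev BaseGroup : Type := PresentedGroup relations

/-- The values of the degree homomorphism on the generators. -/
def deg (n : ℕ) : Gen → Multiplicative (ZMod n)
  | Gen.top _ => Multiplicative.ofAdd 1
  | Gen.circ _ => 1

theorem degree_rel (n : ℕ) : ∀ w ∈ relations, FreeGroup.lift (deg n) w = 1 := by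
  have ht : ∀ j, FreeGroup.lift (deg n) (top j) = Multiplicative.ofAdd 1 := fun j => by
    simp [top, deg]
  have hc : ∀ j, FreeGroup.lift (deg n) (circ j) = 1 := fun j => by simp [circ, deg]
  rintro w (⟨j, rfl⟩ | ⟨j, rfl⟩)
  · simp [relator, bottom, ht, hc]
  · simp [commuting, around, ht, hc]

/-- The homomorphism to `Z/n` that sends the meridians of `K` to `1` and the meridians of the
circles to `0`. -/
def degree (n : ℕ) : BaseGroup →* Multiplicative (ZMod n) :=
  PresentedGroup.toGroup (degree_rel n)

/-- The group of the preimage of `K` and the three circles in the `n`-fold cyclic cover. -/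
abbrev LinkGroup (n : ℕ) : Type := (degree n).ker

theorem degree_top (n : ℕ) (j : ZMod 3) :
    degree n (PresentedGroup.mk relations (top j)) = Multiplicative.ofAdd 1 :=
  (PresentedGroup.toGroup.of (degree_rel n) : degree n (PresentedGroup.of (Gen.top j)) = _)

theorem degree_circ (n : ℕ) (j : ZMod 3) :
    PresentedGroup.mk relations (circ j) ∈ (degree n).ker :=
  (PresentedGroup.toGroup.of (degree_rel n) : degree n (PresentedGroup.of (Gen.circ j)) = _)

theorem degree_around (n : ℕ) (j : ZMod 3) :
    PresentedGroup.mk relations (around j) ∈ (degree n).ker := by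
  show degree n _ = 1
  unfold around
  rw [map_mul, map_inv, map_mul, map_inv, degree_top, degree_top, mul_inv_cancel]

theorem degree_parallel (n : ℕ) (k : ZMod 3) :
    PresentedGroup.mk relations (parallel k) ∈ (degree n).ker := by
  unfold parallel
  rw [map_mul, map_inv]
  exact mul_mem (degree_circ n k) (inv_mem (degree_circ n (k + 2)))

theorem degree_pow (n : ℕ) (k : ZMod 3) :
    PresentedGroup.mk relations (top k ^ n) ∈ (degree n).ker := by
  show degree n _ = 1
  rw [map_pow, map_pow, degree_top, ← ofAdd_nsmul]
  simp

/-- The conjugate of an element of the link group by the `i`-th power of the meridian `top 0`: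
this moves the base copy to the copy `i`. -/
def copy (n : ℕ) (i : ZMod n) : LinkGroup n →* LinkGroup n :=
  (MulAut.conjNormal (PresentedGroup.mk relations (top 0) ^ i.val)).toMonoidHom

/-- The meridian of the component over the circle `j` in the copy `i`. -/
def meridian (n : ℕ) (j : ZMod 3) (i : ZMod n) : LinkGroup n :=
  copy n i ⟨PresentedGroup.mk relations (circ j), degree_circ n j⟩

/-- The longitude of the component over the circle `j` in the copy `i`. -/
def longitude (n : ℕ) (j : ZMod 3) (i : ZMod n) : LinkGroup n :=
  copy n i ⟨PresentedGroup.mk relations (around j), degree_around n j⟩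

/-- The meridian of the component over the component `k` of `K`, the lift of `n` times the
meridian of this component. -/
def branchMeridian (n : ℕ) (k : ZMod 3) : LinkGroup n :=
  ⟨PresentedGroup.mk relations (top k ^ n), degree_pow n k⟩

/-- The longitude of the component over the component `k` of `K`. -/
def branchLongitude (n : ℕ) (k : ZMod 3) : LinkGroup n :=
  ⟨PresentedGroup.mk relations (parallel k), degree_parallel n k⟩

/-- The filling of the component over the circle `j` in the copy `i`: the column `j` of the copy
`i` gets `2 r` crossings with `r = p j i / q j i`. -/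
def circleRelator (n : ℕ) (p q : ZMod 3 → ZMod n → ℕ) (j : ZMod 3) (i : ZMod n) : LinkGroup n :=
  meridian n j i ^ q j i * (longitude n j i ^ p j i)⁻¹

/-- The filling of the component over the component `k` of `K`. -/
def branchRelator (n : ℕ) (u v : ZMod 3 → ℕ) (k : ZMod 3) : LinkGroup n :=
  branchMeridian n k ^ v k * branchLongitude n k ^ u k

/-- The fundamental group of the manifold obtained by filling all `3 n + 3` boundary tori. -/
abbrev SurgeryGroup (n : ℕ) (p q : ZMod 3 → ZMod n → ℕ) (u v : ZMod 3 → ℕ) : Type :=
  LinkGroup n ⧸ Subgroup.normalClosure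
    ((Set.range fun a : ZMod 3 × ZMod n => circleRelator n p q a.1 a.2) ∪
      Set.range (branchRelator n u v))

/-- `G` has no nontrivial homomorphism to a left-orderable group; in particular it is not
left-orderable. -/
theorem not_lo {G : Type} [Group G]
    (h : ∀ (H : Type) [Group H], LeftOrderable H → ∀ f : G →* H, ∀ g, f g = 1) :
    ¬ LeftOrderable G := by
  intro hG
  obtain ⟨a, b, hab⟩ := hG.1
  have key := h G hG (MonoidHom.id _)
  exact hab ((key a).trans (key b).symm)

/-- left multiplication -/
def lmul {H : Type*} [Group H] [LinearOrder H] (hinv : ∀ a b c : H, a ≤ b ↔ c * a ≤ c * b) :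
    H →* Aut H where
  toFun c := (⟨Equiv.mulLeft c, fun {a b} => (hinv a b c).symm⟩ : H ≃o H)
  map_one' := by
    apply Aut.ext'
    intro x
    exact one_mul x
  map_mul' a b := by
    apply Aut.ext'
    intro x
    exact mul_assoc a b x

theorem of_aut {Γ : Type*} [Group Γ] {H : Type*} [Group H] (hH : LeftOrderable H)
    (h : ∀ [LinearOrder H] (ψ : Γ →* Aut H) (g : Γ), ψ g = 1) (f : Γ →* H) (γ : Γ) :
    f γ = 1 := by
  classical
  obtain ⟨_, lt, hlt, hinv⟩ := hH
  let _ : LinearOrder H := linearOrderOfSTO lt
  have hinv' : ∀ a b c : H, a ≤ b ↔ c * a ≤ c * b := by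
    intro a b c
    show (a = b ∨ lt a b) ↔ (c * a = c * b ∨ lt (c * a) (c * b))
    rw [mul_right_inj, ← hinv]
  have h1 := h ((lmul hinv').comp f) γ
  have h2 : (lmul hinv') (f γ) (1 : H) = 1 := by
    have : (lmul hinv') (f γ) = 1 := h1
    rw [this]; rfl
  have h3 : f γ * 1 = 1 := h2
  rwa [mul_one] at h3

theorem surgery_trivial (n : ℕ) (hn : 0 < n) (p q : ZMod 3 → ZMod n → ℕ) (u v : ZMod 3 → ℕ)
    (hpq : ∀ j i, 0 < p j i ∨ 0 < q j i) (hzero : ∀ i j k, j ≠ k → 0 < p j i ∨ 0 < p k i)
    (hinf : ∀ i, ∃ j, 0 < q j i) (hpos : ∃ i, ∀ j, 0 < p j i ∧ 0 < q j i) (hv : ∀ k, 0 < v k)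
    {X : Type*} [LinearOrder X] (ψ : SurgeryGroup n p q u v →* Aut X)
    (g : SurgeryGroup n p q u v) : ψ g = 1 := by
  have : NeZero n := ⟨hn.ne'⟩
  set π : LinkGroup n →* SurgeryGroup n p q u v := QuotientGroup.mk' _ with hπ
  obtain ⟨g, rfl⟩ := QuotientGroup.mk'_surjective _ g
  obtain ⟨i₀, hi₀⟩ := hpos
  have hcirc : ∀ j i, π (meridian n j i) ^ q j i = π (longitude n j i) ^ p j i := by
    intro j i
    have h3 : π (circleRelator n p q j i) = 1 := by
      rw [hπ, QuotientGroup.mk'_apply, QuotientGroup.eq_one_iff]
      exact Subgroup.subset_normalClosure (Or.inl ⟨(j, i), rfl⟩)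
    have h4 : π (meridian n j i ^ q j i * (longitude n j i ^ p j i)⁻¹) = 1 := h3
    rwa [map_mul, map_inv, map_pow, map_pow, mul_inv_eq_one] at h4
  have hbranch : ∀ k, π (branchMeridian n k) ^ v k * π (branchLongitude n k) ^ u k = 1 := by
    intro k
    have h3 : π (branchRelator n u v k) = 1 := by
      rw [hπ, QuotientGroup.mk'_apply, QuotientGroup.eq_one_iff]
      exact Subgroup.subset_normalClosure (Or.inr ⟨k, rfl⟩)
    have h4 : π (branchMeridian n k ^ v k * branchLongitude n k ^ u k) = 1 := h3
    rwa [map_mul, map_pow, map_pow] at h4
  refine Pool.Agent.H34.EP.hom_trivial (degree n) (ψ.comp π) hn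
    (fun k => PresentedGroup.mk relations (top k)) (fun k => PresentedGroup.mk relations (circ k))
    (degree_top n) (degree_circ n) (fun k => ?_) (fun k => ?_) (fun k => ?_) (fun M ha hc => ?_)
    (fun k i => p k i) (fun k i => q k i) (fun k i hi => ?_) (fun k i _ => hpq k i)
    (fun i _ => hzero i) (fun i _ => hinf i) i₀.val (ZMod.val_lt i₀) (fun k => ?_) u v hv
    (fun k => ?_) g
  · have := degree_around n k
    unfold around at this
    rwa [map_mul, map_inv] at this
  · have := degree_pow n k
    rwa [map_pow] at this
  · have h : PresentedGroup.mk relations (relator (k + 2)) = 1 :=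
      PresentedGroup.one_of_mem (Or.inl ⟨k + 2, rfl⟩)
    simp only [relator, bottom] at h
    rw [Pool.Agent.Q184.TP.i21] at h
    simp only [map_mul, map_inv] at h
    generalize PresentedGroup.mk relations (top k) = x at h ⊢
    generalize PresentedGroup.mk relations (circ k) = y at h ⊢
    generalize PresentedGroup.mk relations (circ (k + 2)) = z at h ⊢
    calc x * (y * z⁻¹) = y * (y⁻¹ * x * y) * z⁻¹ := by group
      _ = y * (z⁻¹ * x * z * (z⁻¹ * x⁻¹ * z * (y⁻¹ * x * y))) * z⁻¹ := by group
      _ = y * z⁻¹ * x := by rw [h]; group
  · rw [eq_top_iff, ← PresentedGroup.closure_range_of, Subgroup.closure_le]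
    rintro _ ⟨j, rfl⟩
    rcases j with j | j
    · exact ha j
    · exact hc j
  · have h := congrArg ψ (hcirc k (i : ZMod n))
    rw [map_pow, map_pow] at h
    have e1 : ψ (π (meridian n k (i : ZMod n))) = (ψ.comp π) (MulAut.conjNormal
        (PresentedGroup.mk relations (top 0) ^ i)
        (⟨PresentedGroup.mk relations (circ k), degree_circ n k⟩ : (degree n).ker)) := by
      unfold meridian copy
      rw [ZMod.val_cast_of_lt hi]
      rfl
    have e2 : ψ (π (longitude n k (i : ZMod n))) = (ψ.comp π) (MulAut.conjNormal
        (PresentedGroup.mk relations (top 0) ^ i)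
        (⟨PresentedGroup.mk relations (around k), degree_around n k⟩ : (degree n).ker)) := by
      unfold longitude copy
      rw [ZMod.val_cast_of_lt hi]
      rfl
    rw [e1, e2] at h
    exact h
  · have e : ((i₀.val : ℕ) : ZMod n) = i₀ := ZMod.natCast_zmod_val i₀
    rw [e]
    exact hi₀ k
  · have h := congrArg ψ (hbranch k)
    rw [map_mul, map_pow, map_pow, map_one] at h
    exact h

/-- **Surgeries on the preimage of an even pretzel link and its crossing circles.** Let `n ≥ 1`.
Fill the exterior of the preimage, in the `n`-fold cyclic cover, of the three-component unlink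
`K = P(0, 0, 0)` and the three circles around its columns: over the circle `j` in the copy `i` with
slope `p j i / q j i` (`hpq`: a number `≥ 0` or infinity), over the component `k` of `K` along
`(n times the meridian) ^ v k * longitude ^ u k` with `v k ≥ 1`.  Assume that in every copy at most
one of the three slopes is zero (`hzero`) and not all of them are infinite (`hinf`), and that in at
least one copy all three are positive and finite (`hpos`).  Then the fundamental group of the filled
manifold is not left-orderable, and has no nontrivial homomorphism to a left-orderable group. -/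
theorem result (n : ℕ) (hn : 0 < n) (p q : ZMod 3 → ZMod n → ℕ) (u v : ZMod 3 → ℕ)
    (hpq : ∀ j i, 0 < p j i ∨ 0 < q j i) (hzero : ∀ i j k, j ≠ k → 0 < p j i ∨ 0 < p k i)
    (hinf : ∀ i, ∃ j, 0 < q j i) (hpos : ∃ i, ∀ j, 0 < p j i ∧ 0 < q j i) (hv : ∀ k, 0 < v k) :
    ¬ LeftOrderable (SurgeryGroup n p q u v) ∧
    ∀ (H : Type w) [Group H], LeftOrderable H →
      ∀ f : SurgeryGroup n p q u v →* H, ∀ g, f g = 1 :=
  ⟨not_lo fun _ _ hH f g => of_aut hH
      (fun ψ g => surgery_trivial n hn p q u v hpq hzero hinf hpos hv ψ g) f g,
    fun _ _ hH f g => of_aut hH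
      (fun ψ g => surgery_trivial n hn p q u v hpq hzero hinf hpos hv ψ g) f g⟩

end Pool.Agent.Results.MP_9ae2f3_gt.EvenPretzelLiftSurgeries
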