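import Pool.Agent.H46.CC.Fin4

set_option autoImplicit false

/-!
# Four- and fivefold cyclic branched covers of two-bridge links

A closed chain of tangles on the strands `0, ..., k`: the closure of the word
`(0 1 2 ... (k - 1)) ^ n`, where the letter `c` stands for a tangle between the strands `c` and
`c + 1`: a rational tangle `p / q` with `0 < p / q ≤ 1` or an alternating tangle diagram of the same
sign which is a sum of tangles, one of which is a single crossing; or the mirror images of these. The
`n` tangles for the letter `c` have the same sign `ε c`.

If for each letter `c` the `n` tangles are `ε c / b c` with `b c ≥ 1`, the double branched cover of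
the chain is the `n`-fold cyclic branched cover of the two-bridge link with the continued fraction
`2 c₁ + 1 / (2 c₂ + 1 / (... + 1 / (2 c_k)))`, where `c_{i + 1} = (-1) ^ i ε i b i`. In general the cover
is obtained by Dehn surgery on a link with `2 n k` components.

The theorem: let `n = 4` and `k ≤ 4`, or `n = 5` and `k ≤ 3`, and suppose that no three consecutive
letters have the same sign. Then the fundamental group of the double branched cover has no nontrivial
homomorphism to a left-orderable group. In particular this holds for the 4-fold cyclic branched covers
of all two-bridge knots of genus at most two with this condition on the signs of the even continued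
fraction. The condition is necessary: for `n = 4`, three equal signs and single crossings the
chain is the torus link `T(4, 4)`, and its double branched cover has infinite first homology.

The proof. Let the group act on a linear order; each region `(i, t)` gives a map of the order. The
tangles give implications between inequalities of the points that are obtained by applying these maps
and their inverses to a base point. For each list of signs, up to rotation and reflection, a
certificate (a derivation with case distinctions, found by a search program and evaluated in the
kernel) shows that it is impossible that the region `(1, 0)` is the largest one of the column `1`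
at the base point and larger than the region `(1, 1)`. So the column `1` is constant, and from there
the whole chain collapses.
-/

namespace Pool.Agent.Results.MP_9ae2f3_gt.FourAndFivefoldCyclicCovers

open Pool.Agent.Y479.LS Pool.Agent.H46.CC
open Pool.Agent.K7.H39.TB (Tang)

/-- **Chains with four or five tangles in each column.** -/
theorem result (n k : ℕ) (hnk : n = 4 ∧ k ≤ 4 ∨ n = 5 ∧ k ≤ 3) (ε : Fin k → Bool)
    (T : Fin k → ZMod n → Tang) (hb : ∀ c t, (T c t).Bounded) (hp : ∀ c t, (T c t).Proper)
    (hε : NoThree ε) :
    (∀ (H : Type) [Group H], LeftOrderable H → ∀ (f : CycChain ε T →* H) (γ : CycChain ε T),
      f γ = 1) ∧ ¬ LeftOrderable (CycChain ε T) := by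
  have hg : Good n k (Cyc.sg ε) := by
    refine good_ofFn ?_
    rcases hnk with ⟨rfl, hk⟩ | ⟨rfl, hk⟩
    · exact good4 _ (by rwa [List.length_ofFn]) (noThree_ofFn hε)
    · exact good5 _ (by rwa [List.length_ofFn]) (noThree_ofFn hε)
  have h := noLO_of_good hg T hb hp
  exact ⟨h, h.not_leftOrderable⟩

end Pool.Agent.Results.MP_9ae2f3_gt.FourAndFivefoldCyclicCovers
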