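import Pool.Agent.H15.CP.Core

set_option autoImplicit false

/-!
# Toroidal manifolds glued from the exteriors of positive closed chains and pieces

Consider the closed chains of `n ≤ 10` tangle balls on three strands with one of the words
`ababababab`, `aabaabaab`, `abbabbabb`, `AbaBab` (`Pool.Agent.K7.H39.TB.words`): a letter `a` or `A`
stands for a ball between the strands 1 and 2 of a closed braid on three strands, a letter `b` or `B`
for a ball between the strands 2 and 3. The double cover of the complement of the `n` balls, branched
along the strands between the balls, is a compact manifold `M_w` with `n` boundary tori (the exterior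
of a chain link with `n` components in a closed manifold; its fillings are the Takahashi manifolds).
Its fundamental group is generated by the regions `A i`, `B i`; on the torus number `i` there are the
two commuting elements `A i`, `B (i + 1)⁻¹ B i` for a letter of the first kind, and `B i`,
`A i⁻¹ A (i + 1)` for a letter of the second kind.

A closed manifold is obtained by gluing to each of the `n` tori one of the following manifolds
(`Fill`), where the two elements of the torus become `A` and `a`:

* a solid torus or the double branched cover of a ball along an alternating tangle (`tangle`), that is,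
  the ball is filled with a rational tangle `p / q ≥ 0` or with an alternating tangle;
* the twisted interval bundle over the Klein bottle (`klein`), `A = y ^ i x ^ (2 j)`,
  `a = y ^ k x ^ (2 l)` with `j, l ≥ 1`;
* a Seifert fibred space over the disc with any number `n ≥ 2` of exceptional fibres (`seifert`), for
  instance the exterior of a torus knot, with `A` and `a` in the cone `InCone`;
* the exterior of a knot with Nie's property (D) (for instance the closure of a positive 1-bridge
  braid, an L-space twisted torus knot, and many L-space satellite knots), or a manifold obtained from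
  the exterior of the Borromean rings, the product of the circle and a sphere with at least three
  holes, or the manifold of an alternating diagram with an encircled triple of strands by gluing
  manifolds of this kind and solid tori to all but one of the boundary tori, again and again (`tree`;
  the class `Tree` of the result `GluedKnotExteriors`), with `A = x ^ i e ^ j`, `a = x ^ k e ^ l`,
  `i, j, k, l ≥ 1`; for a knot `x = μ`, `e = μ ^ (2 g - 1) λ`.

For the letters `a` and `b` (small letters) it is required in addition that `A a⁻¹` is an element of
the same kind or trivial.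

The theorem: every homomorphism from the fundamental group of such a closed manifold to a
left-orderable group is trivial, if at least one letter of each kind is not filled with the trivial
tangle `0 / q`. In particular the group is not left-orderable. If at least one of the pieces is not a
solid torus then the manifold is in general toroidal.

`Glued.Grp M κ` is the fundamental group of the closed manifold (`Pool.Agent.K7.H39.TB.Pub`): the
generators are the `A i`, `B i` and the elements of the pieces.
-/

namespace Pool.Agent.Results.MP_9ae2f3_gt.PositiveChainsOfPieces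

open Pool.Agent.Y479.LS Pool.Agent.K7.H39.TB
open Pool.Agent.Q138.LO (KleinGroup kx ky SeifGroup sc sh InCone)
open Pool.Agent.Results.MP_9ae2f3_gt.GluedKnotExteriors (Tree)
open Pool.Agent.H15.CP

/-- The manifolds which are glued to the tori. -/
inductive Fill : Type 1
  /-- a rational or an alternating tangle -/
  | tangle (T : Tang)
  /-- the twisted interval bundle over the Klein bottle, with group `⟨x, y | x y x⁻¹ = y⁻¹⟩`:
  `A = y ^ i * x ^ (2 * j)`, `a = y ^ k * x ^ (2 * l)` -/
  | klein (i j k l : ℤ)
  /-- the Seifert fibred space over the disc, with group generated by `h` (central) and `c s`,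
  `c s ^ α s = h ^ β s`: `A = c ^ i * h ^ j`, `a = c ^ k * h ^ l`, `c = c 0 ⋯ c (n-1)` -/
  | seifert (n : ℕ) (α β : Fin n → ℕ) (i j k l : ℤ)
  /-- a manifold of the class `Tree`: `A = x ^ i * e ^ j`, `a = x ^ k * e ^ l` -/
  | tree (N : Type) (grp : Group N) (x e : N) (h : Tree N x e) (i j k l : ℕ)

namespace Fill

/-- The fundamental group with the two elements. -/
def piece : Fill → Piece
  | tangle T => T.piece
  | klein i j k l =>
    { P := KleinGroup
      grp := inferInstance
      A := ky ^ i * kx ^ (2 * j)
      a := ky ^ k * kx ^ (2 * l)
      comm := klein_comm' i j k l }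
  | seifert n α β i j k l =>
    { P := SeifGroup n α β
      grp := inferInstance
      A := sc n α β ^ i * sh n α β ^ j
      a := sc n α β ^ k * sh n α β ^ l
      comm := seif_comm' n α β i j k l }
  | tree N _ x e h i j k l =>
    { P := N
      grp := inferInstance
      A := x ^ i * e ^ j
      a := x ^ k * e ^ l
      comm := tree_comm' h i j k l }

/-- The conditions for all letters. -/
def Ok : Fill → Prop
  | tangle _ => True
  | klein _ j _ l => 1 ≤ j ∧ 1 ≤ l
  | seifert n α β i j k l =>
    2 ≤ n ∧ (∀ s, 0 < β s ∧ β s < α s) ∧ InCone α β i j ∧ InCone α β k l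
  | tree _ _ _ _ _ i j k l => 1 ≤ i ∧ 1 ≤ j ∧ 1 ≤ k ∧ 1 ≤ l

/-- The additional condition for the small letters. -/
def Bounded : Fill → Prop
  | tangle T => T.Bounded
  | klein i j k l => (i = k ∧ j = l) ∨ 1 ≤ j - l
  | seifert _ α β i j k l => (i = k ∧ j = l) ∨ InCone α β (i - k) (j - l)
  | tree _ _ _ _ _ i j k l => (i = k ∧ j = l) ∨ (k < i ∧ l < j)

/-- All fillings except the tangles `0 / q`. -/
def Proper : Fill → Prop
  | tangle T => T.Proper
  | _ => True

theorem ok : ∀ F : Fill, F.Ok → F.piece.Ok
  | tangle T, _ => T.ok
  | klein i _ k _, h => ok_of_good (Pool.Agent.Q138.LO.klein_good i k h.1 h.2)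
  | seifert _ _ _ _ _ _ _, h => ok_of_good (Pool.Agent.Q138.LO.seif_good h.1
      (fun s => (h.2.1 s).1) (fun s => (h.2.1 s).2) h.2.2.1 h.2.2.2)
  | tree _ _ _ _ ht _ _ _ _, h => ok_of_good (tree_good ht h.1 h.2.1 h.2.2.1 h.2.2.2)

theorem proper : ∀ F : Fill, F.Ok → F.Proper → F.piece.Proper
  | tangle T, _, h => T.proper h
  | klein i _ k _, h, _ => proper_of_good (Pool.Agent.Q138.LO.klein_good i k h.1 h.2)
  | seifert _ _ _ _ _ _ _, h, _ => proper_of_good (Pool.Agent.Q138.LO.seif_good h.1
      (fun s => (h.2.1 s).1) (fun s => (h.2.1 s).2) h.2.2.1 h.2.2.2)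
  | tree _ _ _ _ ht _ _ _ _, h, _ => proper_of_good (tree_good ht h.1 h.2.1 h.2.2.1 h.2.2.2)

theorem bounded : ∀ F : Fill, F.Ok → F.Bounded → F.piece.Bounded
  | tangle T, _, h => T.bounded h
  | klein i j k l, h, hb => by
    refine bounded_of_good ?_
    rcases hb with ⟨rfl, rfl⟩ | hb
    · exact Or.inl rfl
    · right
      show Pool.Agent.Q138.LO.Good (ky ^ i * kx ^ (2 * j))
        ((ky ^ i * kx ^ (2 * j)) * (ky ^ k * kx ^ (2 * l))⁻¹)
      rw [klein_quot]
      exact Pool.Agent.Q138.LO.klein_good _ _ h.1 hb
  | seifert n α β i j k l, h, hb => by
    refine bounded_of_good ?_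
    rcases hb with ⟨rfl, rfl⟩ | hb
    · exact Or.inl rfl
    · right
      show Pool.Agent.Q138.LO.Good (sc n α β ^ i * sh n α β ^ j)
        ((sc n α β ^ i * sh n α β ^ j) * (sc n α β ^ k * sh n α β ^ l)⁻¹)
      rw [seif_quot]
      exact Pool.Agent.Q138.LO.seif_good h.1 (fun s => (h.2.1 s).1) (fun s => (h.2.1 s).2)
        h.2.2.1 hb
  | tree N _ x e ht i j k l, h, hb => by
    refine bounded_of_good ?_
    rcases hb with ⟨rfl, rfl⟩ | hb
    · exact Or.inl rfl
    · right
      show Pool.Agent.Q138.LO.Good (x ^ i * e ^ j) ((x ^ i * e ^ j) * (x ^ k * e ^ l)⁻¹)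
      rw [tree_quot ht hb.1.le hb.2.le]
      exact tree_good ht h.1 h.2.1 (by omega) (by omega)

end Fill

/-- The fundamental group of the closed manifold obtained from the exterior of the closed chain with
the word `w` by gluing the manifold `F i` to the torus number `i`. -/
abbrev ClosedGrp (w : List Letter) (F : Fin w.length → Fill) : Type :=
  Glued.Grp (fun i => (F i).piece) (fun i => (w.get i).isA)

/-- **Toroidal manifolds glued from the exteriors of positive closed chains and pieces.** -/
theorem result (w : List Letter) (hw : w ∈ words) (F : Fin w.length → Fill) (hF : ∀ i, (F i).Ok)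
    (hb : ∀ i, (w.get i).bounded = true → (F i).Bounded)
    (hA : ∃ i : Fin w.length, (w.get i).isA = true ∧ (F i).Proper)
    (hB : ∃ i : Fin w.length, (w.get i).isA = false ∧ (F i).Proper) :
    (∀ (H : Type) [Group H], LeftOrderable H → ∀ (f : ClosedGrp w F →* H) (γ : ClosedGrp w F),
      f γ = 1) ∧ ¬ LeftOrderable (ClosedGrp w F) := by
  have h : NoLO (ClosedGrp w F) := by
    refine glued_noLO hw (fun i => (F i).piece) (fun i => (F i).ok (hF i))
      (fun i hi => (F i).bounded (hF i) (hb i hi)) ?_ ?_
    · obtain ⟨i, h1, h2⟩ := hA
      exact ⟨i, h1, (F i).proper (hF i) h2⟩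
    · obtain ⟨i, h1, h2⟩ := hB
      exact ⟨i, h1, (F i).proper (hF i) h2⟩
  exact ⟨h, h.not_leftOrderable⟩

end Pool.Agent.Results.MP_9ae2f3_gt.PositiveChainsOfPieces
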