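import Pool.Agent.H34.TF.Tree
import Pool.Agent.H34.TF.Fill

set_option autoImplicit false

/-!
# Pieces glued to the lifts of the crossing circles in 3-fold cyclic branched covers

Let `T` be a plane tree with a root. Let `L(T)` be the numerator closure of the tangle `E(root)`, where
in Conway's notation `E(v) = 1 / E(c₁) + ... + 1 / E(c_k) + 2 a_v` (`c₁, ..., c_k` the children of `v`,
`a_v` an integer). It is the boundary of a surface plumbed from unknotted annuli with `± a_v` full twists;
with this orientation the two strings of each twist region are antiparallel. For a path these are the
2-bridge links, for a star the Montesinos links with the invariants `1 / (2 a_v)`.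

Let all `a_v` be `0` and let `C_v` be the crossing circle of the twist region of `v`, which bounds a disc
that meets the two strings of this region in one point each. The circle `C_v` has linking number zero with
the link, so it lifts to three circles `C_{v,i}`, `i ∈ Z/3`, in the 3-fold cyclic branched cover. A closed
manifold `Y` is obtained from the exterior of all circles `C_{v,i}` by gluing a piece `P_{v,i}` to each
boundary torus; the `3 |T|` pieces are independent of each other. A piece is a group with two elements
`u`, `v`, the fundamental group of a manifold with torus boundary and a basis of the fundamental group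
of the boundary. Each vertex has a sign; `v` is identified with the meridian of `C_{v,i}`, and `u` with the
longitude (the lift of the loop around the two strings), if the sign is `+`, or its inverse, if the sign is
`-`. For instance:

* `Filling.solid p q`, the solid torus, `u` and `v` are the `p`-th and the `q`-th power of the core
  (`p`, `q` coprime): Dehn surgery, in the sheet `i` the twist region gets `± q / p` full twists. If
  `p = 1` and the integers `q = |a_v|` do not depend on `i` then `Y` is the 3-fold cyclic branched cover
  of `L(T)`;
* `Filling.klein`, the twisted interval bundle over the Klein bottle;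
* `Filling.seifert`, Seifert fibred spaces over the disc with any number of exceptional fibres, for
  instance the exteriors of torus knots.

The conditions (`Adm`). Let `m` be the number of neighbours of a vertex whose sign is different from
the sign of the vertex. The pieces of the vertex must be `AtLeast m`: in every action of the piece
on a linear order `v` moves the points moved up by `u` at least as far as `u ^ m`, and dually, and
the points fixed by `u` are fixed by the piece. If the vertex has no children then the pieces must be
`Good`, that is, `u` and `v` move every point in the same direction. For solid tori this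
means `m ≤ q / p`, and `0 < q / p` for the vertices without children; for the other pieces see `Above`.
If all signs are equal then `m = 0` everywhere.

The theorem: every homomorphism from the fundamental group of `Y` to a left-orderable group is
trivial.

`Tangle`, `Tangle.add`, `Tangle.inv`, `Tangle.Cover` are defined in `Pool.Agent.Q184.TP.Tang`; `surg`,
`rest`, `AtLeast` in `Pool.Agent.H34.TF.Surg`; `Forest`, `vert`, `Adm` in `Pool.Agent.H34.TF.Tree`; `Above`,
`Bounded` in `Pool.Agent.H34.TF.Fill`; `Piece`, `Good`, `Filling` in `Pool.Agent.Q138.LO`.
-/

namespace Pool.Agent.Results.MP_9ae2f3_gt.ThreefoldPlumbingPieces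

open Pool.Agent.Y479.LS Pool.Agent.Q138.LO Pool.Agent.H34.TF
open Pool.Agent.Q184.TP (Tangle sg_cases)

/-- Rational surgeries with three different slopes `1 / 2`, `3`, `5 / 3` at the root, and pieces at a
child: the exterior of the trefoil (Seifert invariants `1/2`, `2/3`) and solid tori. -/
example : Adm true (fun i => (Filling.solid (![2, 1, 3] i) (![1, 3, 5] i)).piece)
    (Forest.cons true (fun i => if i = 0 then
        (Filling.seifert 2 ![2, 3] ![1, 2] 0 1 1 0).piece else (Filling.solid 1 1).piece)
      Forest.nil Forest.nil) := by
  have h0 : Above 0 (Filling.seifert 2 ![2, 3] ![1, 2] 0 1 1 0) := by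
    refine ⟨le_rfl, by decide, by decide, Or.inr (Or.inl ⟨rfl, one_pos⟩), Or.inl ⟨by simp, 0, ?_⟩⟩
    simp
  have h1 : Above 0 (Filling.solid 1 1) := ⟨le_rfl, by norm_num⟩
  have h2 : ∀ i : ZMod 3, Above 0 (Filling.solid (![2, 1, 3] i) (![1, 3, 5] i)) := by
    intro i
    have hi : i = 0 ∨ i = 1 ∨ i = 2 := by revert i; decide
    rcases hi with rfl | rfl | rfl <;> exact ⟨by decide, by decide⟩
  have k0 : Good (Filling.seifert 2 ![2, 3] ![1, 2] 0 1 1 0).piece.u
      (Filling.seifert 2 ![2, 3] ![1, 2] 0 1 1 0).piece.v := by simpa [rest] using h0.good
  have k1 : Good (Filling.solid 1 1).piece.u (Filling.solid 1 1).piece.v := by simpa [rest] using h1.good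
  refine ⟨fun i => AtLeast.of_good (h2 i).good, Or.inr (by simp), fun i => ?_, Or.inl fun i => ?_,
    trivial, trivial⟩
  · show AtLeast 0 (if i = 0 then _ else _)
    split_ifs
    · exact AtLeast.of_good h0.good
    · exact AtLeast.of_good h1.good
  · by_cases hi : i = 0
    · subst hi
      exact k0
    · beta_reduce
      rw [if_neg hi]
      exact k1

/-- **Pieces glued to the lifts of the crossing circles of plumbing links in 3-fold cyclic branched
covers.**

1. For every admissible tree (signs, and three pieces at each vertex) the fundamental group of the
closed manifold has no nontrivial homomorphism to a left-orderable group; in particular it is not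
left-orderable.
2. Solid tori with `m ≤ q / p`, and Klein bottle and Seifert pieces which are `Above m`, are
`AtLeast m`.
3. Solid tori with `0 < q / p`, and Klein bottle and Seifert pieces which are `Above 0`, are good. -/
theorem result :
    (∀ (s : Bool) (P : ZMod 3 → Piece) (F : Forest), Adm s P F →
      (∀ (H : Type) [Group H], LeftOrderable H →
        ∀ (f : (vert s P F.tangle).Cover →* H) (γ : (vert s P F.tangle).Cover), f γ = 1) ∧
      ¬ LeftOrderable (vert s P F.tangle).Cover) ∧
    (∀ (m : ℕ) (F : Filling), Bounded m F → AtLeast m F.piece) ∧
    (∀ F : Filling, Above 0 F → Good F.piece.u F.piece.v) := by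
  refine ⟨?_, fun m F h => h.atLeast, fun F h => by simpa [rest] using h.good⟩
  intro s P F h
  obtain ⟨h1, h2, h3⟩ := tree_main h
  have key : ∀ (H : Type) [Group H], LeftOrderable H →
      ∀ (f : (vert s P F.tangle).Cover →* H) (γ : (vert s P F.tangle).Cover), f γ = 1 :=
    fun H _ hH f γ => Tangle.hom_trivial'
      (fun X _ ψ g => Tangle.cover_trivial h1 h2 (sg_cases s) h3 ψ g) H hH f γ
  refine ⟨key, fun hH => ?_⟩
  obtain ⟨x, y, hxy⟩ := hH.1
  have h4 := key _ hH (MonoidHom.id _)
  exact hxy ((h4 x).trans (h4 y).symm)

end Pool.Agent.Results.MP_9ae2f3_gt.ThreefoldPlumbingPieces
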